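import Mathlib
import Pool.Agent.Lib.MP_02bbae_an.Tstar
import Pool.Agent.Lib.MP_02bbae_an.PhaseUpper
import Pool.Agent.Lib.MP_02bbae_an.PhaseLower

/-!
# The number of bits needed by conjugate gradients: the order of magnitude for all `n`, `κ`, `ε`
-/

set_option autoImplicit false

open scoped ENNReal

open Pool.Agent.Lib.MP_02bbae_an

namespace Pool.Agent.Results.MP_02bbae_an.PhaseDiagram

/-- the lower bound in all regimes -/
theorem lower_all {n t : ℕ} {ε : ℝ} {κ : ℝ≥0∞} (hn : 1 ≤ n) (hε : 0 < ε) (hε1 : ε < 1 / 3)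
    (hκ : 1 ≤ κ) (ht : 1 ≤ t)
    (h : (t : ℝ) ≤ max (max (Real.logb 2 (1 / ε)) (Real.logb 2 n))
      (n * max 0 (Real.logb 2 (thrT κ ε / (2 ^ 70 * n))) / 2 ^ 70) - 2 ^ 70) : Fails n κ ε t := by
  have hn1 : (1 : ℝ) ≤ n := by exact_mod_cast hn
  have hn0 : (0 : ℝ) < n := by linarith
  have ht1 : (1 : ℝ) ≤ t := by exact_mod_cast ht
  have hT := (thrT_props hε (by linarith) hκ).2.2.1
  have hT0 : 0 < thrT κ ε := by linarith
  rw [le_sub_iff_add_le, le_max_iff] at h
  rcases h with h | h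
  · apply lower_log hn hε hε1 hκ ht
    rw [max_comm]
    linarith
  · rw [le_div_iff₀ (by norm_num)] at h
    have h0 : 0 < Real.logb 2 (thrT κ ε / (2 ^ 70 * n)) := by
      by_contra hc
      push Not at hc
      rw [max_eq_left hc] at h
      linarith
    rw [max_eq_right h0.le] at h
    have hx0 : 0 < thrT κ ε / (2 ^ 70 * n) := by positivity
    have h1 : 1 < thrT κ ε / (2 ^ 70 * n) := by
      by_contra hc
      push Not at hc
      exact absurd (Real.logb_nonpos (by norm_num : (1 : ℝ) < 2) hx0.le hc) (not_le.mpr h0)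
    rw [lt_div_iff₀ (by positivity), one_mul] at h1
    apply lower_region hn hε hε1 hκ ht
    · have : (2 : ℝ) ^ 64 * n ≤ 2 ^ 70 * n := mul_le_mul_of_nonneg_right (by norm_num) hn0.le
      linarith
    · have e1 : Real.logb 2 (thrT κ ε / (2 ^ 70 * n)) ≤ Real.logb 2 (thrT κ ε / n) := by
        apply Real.logb_le_logb_of_le (by norm_num) hx0
        apply div_le_div_of_nonneg_left hT0.le hn0
        have : (1 : ℝ) * n ≤ 2 ^ 70 * n := mul_le_mul_of_nonneg_right (by norm_num) hn0.le
        linarith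
      have e2 := mul_le_mul_of_nonneg_left e1 hn0.le
      linarith

/-- The order of magnitude of the number of bits for all `n`, `κ` and `ε < 1 / 3`.
`P` is any class of runs which contains every run in which each product `A p` and each inner
product `rᵀ r` is computed only once. With `L = log (1 / ε)`, `N = min (√κ) (ε ^ (-2/3))` and
`T = N * (1 + log (ε ^ (-2/3) / N))` (logarithms to base two), the least number of bits lies between
`max L (log n) (n * log⁺ (T / (C * n)) / C) - C` and `2 * log n + C * (L + n * log⁺ (C * T / n))`.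
This is the number of bits when the runs stopped by a zero denominator do not count. The second
part gives the corresponding bounds when they count as failures, `κ` is finite and `n ≥ 2`. -/
theorem result : ∃ C : ℝ, 1 ≤ C ∧ ∀ (n : ℕ) (κ : ℝ≥0∞) (ε : ℝ) (P : Run n → Prop),
    1 ≤ n → 1 ≤ κ → 0 < ε → ε < 1 / 3 → (∀ R : Run n, R.Reuses → P R) →
    ∀ L N T : ℝ, L = Real.logb 2 (1 / ε) →
    N = Real.sqrt (min κ (ENNReal.ofReal ((1 / ε) ^ (4 / 3 : ℝ)))).toReal →
    T = N * (1 + Real.logb 2 ((1 / ε) ^ (2 / 3 : ℝ) / N)) →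
    (∃ t : ℕ, tstarFor False P κ ε = t ∧
      max (max L (Real.logb 2 n)) (n * max 0 (Real.logb 2 (T / (C * n))) / C) - C ≤ t ∧
      t ≤ 2 * Real.logb 2 n + C * (L + n * max 0 (Real.logb 2 (C * T / n)))) ∧
    (2 ≤ n → κ ≠ ⊤ → ∃ t : ℕ, tstarFor True P κ ε = t ∧
      max (Real.logb 2 κ.toReal)
        (max (max L (Real.logb 2 n)) (n * max 0 (Real.logb 2 (T / (C * n))) / C)) - C ≤ t ∧
      t ≤ Real.logb 2 κ.toReal
        + (2 * Real.logb 2 n + C * (L + n * max 0 (Real.logb 2 (C * T / n))))) := by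
  refine ⟨2 ^ 70, by norm_num, ?_⟩
  intro n κ ε P hn hκ hε hε1 hP L N T hL hN hT
  have hNd : N = thrN κ ε := hN
  have hTd : T = thrT κ ε := by rw [hT, hNd]; rfl
  obtain ⟨-, -, T3, -⟩ := thrT_props hε (by linarith) hκ
  rw [← hTd] at T3
  have hn1 : (1 : ℝ) ≤ n := by exact_mod_cast hn
  have hn0 : (0 : ℝ) < n := by linarith
  have hT0 : 0 < T := by linarith
  have hκ1 : κ ≠ ⊤ → 1 ≤ κ.toReal := fun hκt => by
    rw [← ENNReal.toReal_one]
    exact ENNReal.toReal_mono hκt hκ
  have hL1 : 3 / 2 ≤ L := by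
    rw [hL, Real.le_logb_iff_rpow_le (by norm_num) (by positivity)]
    have h1 : (2 : ℝ) ^ (3 / 2 : ℝ) ≤ 3 := by
      have h2 : ((2 : ℝ) ^ (3 / 2 : ℝ)) ^ 2 ≤ 3 ^ 2 := by
        rw [← Real.rpow_natCast, ← Real.rpow_mul (by norm_num)]
        norm_num
      exact le_of_sq_le_sq h2 (by norm_num)
    have h3 : 3 ≤ 1 / ε := by rw [le_div_iff₀ hε]; linarith
    linarith
  have hl2 : Real.logb 2 (2 / ε) = 1 + L := by
    have : 2 / ε = 2 * (1 / ε) := by ring
    rw [this, Real.logb_mul (by norm_num) (by positivity), Real.logb_self_eq_one (by norm_num),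
      ← hL]
  have hln : 0 ≤ Real.logb 2 (n : ℝ) := Real.logb_nonneg (by norm_num) hn1
  -- the upper bound
  set Z : ℝ := n * max 0 (Real.logb 2 (1024 * T / n)) with hZ
  have hZ0 : 0 ≤ Z := mul_nonneg hn0.le (le_max_left _ _)
  have hZW : Z ≤ n * max 0 (Real.logb 2 (2 ^ 70 * T / n)) := by
    apply mul_le_mul_of_nonneg_left _ hn0.le
    apply max_le_max le_rfl
    apply Real.logb_le_logb_of_le (by norm_num) (by positivity)
    apply div_le_div_of_nonneg_right _ hn0.le
    apply mul_le_mul_of_nonneg_right (by norm_num) hT0.le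
  have hB : ∀ t : ℕ, 2 * Real.logb 2 n + 714 * L + 2 * Z ≤ t → Big3 n t κ ε := by
    intro t ht
    refine ⟨hn, hε, by linarith, hκ, ?_⟩
    rw [hl2, ← hTd]
    change 2 * Real.logb 2 n + 428 * (1 + L) + 2 * Z ≤ t
    linarith
  -- the lower bound
  have hlow : ∀ (strict : Prop) (t : ℕ), 1 ≤ t → (t : ℝ) ≤ max (max L (Real.logb 2 n))
      (n * max 0 (Real.logb 2 (T / (2 ^ 70 * n))) / 2 ^ 70) - 2 ^ 70 →
      ¬ GuaranteeFor strict P κ ε t := by
    intro strict t ht h
    rw [hL, hTd] at h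
    exact (lower_all hn hε hε1 hκ ht h).not_for strict hP
  constructor
  · obtain ⟨t, ht, h1, h2⟩ := inf_bound (G := GuaranteeFor False P κ ε)
      (F := 2 * Real.logb 2 n + 714 * L + 2 * Z) (by linarith)
      (fun t ht => (phase_upper (hB t ht)).for P) (hlow False)
    exact ⟨t, ht, h1, by linarith⟩
  · intro hn2 hκt
    have hlκ : 0 ≤ Real.logb 2 κ.toReal := Real.logb_nonneg (by norm_num) (hκ1 hκt)
    obtain ⟨t, ht, h1, h2⟩ := inf_bound (G := GuaranteeFor True P κ ε)
      (F := Real.logb 2 κ.toReal + 4 + (2 * Real.logb 2 n + 714 * L + 2 * Z))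
      (U := max (Real.logb 2 κ.toReal) (max (max L (Real.logb 2 n))
        (n * max 0 (Real.logb 2 (T / (2 ^ 70 * n))) / 2 ^ 70)) - 2 ^ 70) (by linarith)
      (fun t ht => (phase_upper_strong (hB t (by linarith)) hκt (by linarith)).for P) (by
        intro t ht h
        rw [le_sub_iff_add_le, le_max_iff] at h
        rcases h with h | h
        · exact lower_break hn2 (by linarith) ht hP (hκ1 hκt) hκt (by linarith)
        · exact hlow True t ht (by linarith))
    exact ⟨t, ht, h1, by linarith⟩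

end Pool.Agent.Results.MP_02bbae_an.PhaseDiagram
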