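import Mathlib
import Pool.Agent.Lib.MP_02bbae_an.Tstar
import Pool.Agent.Lib.MP_02bbae_an.Upper

/-!
# The number of bits needed by conjugate gradients, up to `O(n log n)`
-/

set_option autoImplicit false

open scoped ENNReal

open Pool.Agent.Lib.MP_02bbae_an

namespace Pool.Agent.Results.MP_02bbae_an.PrecisionOfCG

/-- `n * log (n + 1) ≥ 1` -/
theorem one_le_err {n : ℕ} (hn : 1 ≤ n) : 1 ≤ (n : ℝ) * Real.logb 2 (n + 1) := by
  have hn1 : (1 : ℝ) ≤ n := by exact_mod_cast hn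
  have h1 : 1 ≤ Real.logb 2 ((n : ℝ) + 1) := by
    rw [Real.le_logb_iff_rpow_le (by norm_num) (by linarith), Real.rpow_one]
    linarith
  nlinarith

/-- two-sided bound for an infimum of this kind -/
theorem inf_bound {G : ℕ → Prop} {F U : ℝ} (hF : 1 ≤ F)
    (hup : ∀ t : ℕ, F ≤ t → G t) (hlo : ∀ t : ℕ, 1 ≤ t → (t : ℝ) ≤ U → ¬ G t) :
    ∃ T : ℕ, (⨅ t : {t : ℕ // 1 ≤ t ∧ G t}, ((t : ℕ) : ℕ∞)) = T ∧ (T : ℝ) ≤ F + 1 ∧ U ≤ T := by
  have h1 : F ≤ (⌈F⌉₊ : ℕ) := Nat.le_ceil F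
  have h2 : 1 ≤ ⌈F⌉₊ := by
    rw [Nat.one_le_ceil_iff]
    linarith
  obtain ⟨T, hT, hT2, hT3⟩ := inf_attained (G := G) ⟨⌈F⌉₊, h2, hup _ h1⟩
  refine ⟨T, hT2, ?_, ?_⟩
  · have h3 : T ≤ ⌈F⌉₊ := hT3 _ h2 (hup _ h1)
    have h4 : (T : ℝ) ≤ (⌈F⌉₊ : ℕ) := by exact_mod_cast h3
    have h5 := Nat.ceil_lt_add_one (show 0 ≤ F by linarith)
    linarith
  · by_contra hcon
    push Not at hcon
    exact hlo T hT.1 hcon.le hT.2

/-- the logarithm of the smaller of `κ` and `1 / ε` is nonnegative -/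
theorem logb_min_nonneg {ε : ℝ} (hε : 0 < ε) (hε1 : ε < 1) {κ : ℝ≥0∞} (hκ : 1 ≤ κ) :
    0 ≤ Real.logb 2 (min κ (ENNReal.ofReal (1 / ε))).toReal := by
  apply Real.logb_nonneg (by norm_num)
  have hmt : min κ (ENNReal.ofReal (1 / ε)) ≠ ⊤ :=
    ne_top_of_le_ne_top ENNReal.ofReal_ne_top (min_le_right _ _)
  rw [← ENNReal.toReal_one]
  apply ENNReal.toReal_mono hmt
  apply le_min hκ
  rw [← ENNReal.ofReal_one]
  apply ENNReal.ofReal_le_ofReal
  rw [le_div_iff₀ hε]; linarith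

/-- There is a constant `c` such that for all `n`, `κ` and `ε`, whatever class `P` of runs is
admitted, provided that it contains every run in which each product `A p` and each inner product
`rᵀ r` is computed only once: the least number of bits is finite and differs from
`log (1 / ε) + (n - 1) log (min κ (1 / ε))` by at most `c n log (n + 1)` if runs stopped by a zero
denominator do not count; if they count as failures, the same is true with the maximum of this
number and `log κ`, when `n ≥ 2` and `κ < ∞`, and the number of bits is infinite when `n ≥ 2` and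
`κ = ∞`. -/
theorem result : ∃ c : ℝ, ∀ (n : ℕ) (κ : ℝ≥0∞) (ε : ℝ) (P : Run n → Prop),
    1 ≤ n → 1 ≤ κ → 0 < ε → ε < 1 → (∀ R : Run n, R.Reuses → P R) →
    (∃ t : ℕ, tstarFor False P κ ε = t ∧
      |(t : ℝ) - (Real.logb 2 (1 / ε)
        + ((n : ℝ) - 1) * Real.logb 2 (min κ (ENNReal.ofReal (1 / ε))).toReal)|
          ≤ c * (n * Real.logb 2 (n + 1))) ∧
    (n = 1 → ∃ t : ℕ, tstarFor True P κ ε = t ∧ |(t : ℝ) - Real.logb 2 (1 / ε)| ≤ c) ∧
    (2 ≤ n → κ ≠ ⊤ → ∃ t : ℕ, tstarFor True P κ ε = t ∧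
      |(t : ℝ) - max (Real.logb 2 (1 / ε)
        + ((n : ℝ) - 1) * Real.logb 2 (min κ (ENNReal.ofReal (1 / ε))).toReal)
          (Real.logb 2 κ.toReal)| ≤ c * (n * Real.logb 2 (n + 1))) ∧
    (2 ≤ n → κ = ⊤ → tstarFor True P κ ε = ⊤) := by
  refine ⟨26, ?_⟩
  intro n κ ε P hn hκ hε hε1 hP
  have hn1 : (1 : ℝ) ≤ n := by exact_mod_cast hn
  have hE := one_le_err hn
  have hL := logb_min_nonneg hε hε1 hκ
  have hL1 : 0 ≤ Real.logb 2 (1 / ε) := by
    apply Real.logb_nonneg (by norm_num)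
    rw [le_div_iff₀ hε]; linarith
  set E : ℝ := (n : ℝ) * Real.logb 2 (n + 1) with hEdef
  set F : ℝ := Real.logb 2 (1 / ε)
    + ((n : ℝ) - 1) * Real.logb 2 (min κ (ENNReal.ofReal (1 / ε))).toReal with hF
  have hF0 : 0 ≤ F := by
    have : 0 ≤ ((n : ℝ) - 1) * Real.logb 2 (min κ (ENNReal.ofReal (1 / ε))).toReal :=
      mul_nonneg (by linarith) hL
    linarith
  have hlo : ∀ (strict : Prop) (t : ℕ), 1 ≤ t → (t : ℝ) ≤ F - 26 * E →
      ¬ GuaranteeFor strict P κ ε t := fun strict t ht h =>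
    (lower_bound n hn ε hε hε1 κ hκ t ht h).not_for strict hP
  refine ⟨?_, ?_, ?_, ?_⟩
  · obtain ⟨T, hT, h1, h2⟩ := inf_bound (G := GuaranteeFor False P κ ε) (F := F + 25 * E)
      (U := F - 26 * E) (by linarith)
      (fun t ht => (upper_bound n hn ε hε hε1 κ hκ t ht).for P) (hlo False)
    refine ⟨T, hT, ?_⟩
    rw [abs_le]
    constructor <;> linarith
  · intro hn1'
    subst hn1'
    have hE1 : E = 1 := by
      rw [hEdef, Nat.cast_one, one_add_one_eq_two, Real.logb_self_eq_one (by norm_num), one_mul]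
    have hF1 : F = Real.logb 2 (1 / ε) := by rw [hF, Nat.cast_one]; ring
    obtain ⟨T, hT, h1, h2⟩ := inf_bound (G := GuaranteeFor True P κ ε)
      (F := Real.logb 2 (1 / ε) + 25) (U := F - 26 * E) (by linarith)
      (fun t ht => (upper_strong_one ε hε hε1 κ t ht).for P) (hlo True)
    refine ⟨T, hT, ?_⟩
    rw [abs_le]
    constructor <;> linarith
  · intro hn2 hκt
    have hM1 : F ≤ max F (Real.logb 2 κ.toReal) := le_max_left _ _
    have hM2 : Real.logb 2 κ.toReal ≤ max F (Real.logb 2 κ.toReal) := le_max_right _ _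
    obtain ⟨T, hT, h1, h2⟩ := inf_bound (G := GuaranteeFor True P κ ε)
      (F := max F (Real.logb 2 κ.toReal) + 25 * E)
      (U := max F (Real.logb 2 κ.toReal) - 26 * E) (by linarith)
      (fun t ht => (upper_strong n hn2 ε hε hε1 κ hκ hκt t (by linarith) (by linarith)).for P)
      (by
        intro t ht h3
        rcases le_total (Real.logb 2 κ.toReal) F with h4 | h4
        · rw [max_eq_left h4] at h3
          exact hlo True t ht h3
        · rw [max_eq_right h4] at h3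
          obtain ⟨m, rfl⟩ : ∃ m, n = m + 2 := ⟨n - 2, by omega⟩
          apply not_for_break hε1 ht _ hP
          have hκ1 : 1 ≤ κ.toReal := by
            rw [← ENNReal.toReal_one]
            exact ENNReal.toReal_mono hκt hκ
          have h5 : ((t + 1 : ℕ) : ℝ) ≤ Real.logb 2 κ.toReal := by push_cast; linarith
          rw [Real.le_logb_iff_rpow_le (by norm_num) (by linarith), Real.rpow_natCast] at h5
          rw [← ENNReal.ofReal_toReal hκt]
          calc (2 : ℝ≥0∞) ^ (t + 1) = ENNReal.ofReal (2 ^ (t + 1)) := by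
                rw [ENNReal.ofReal_pow (by norm_num)]; norm_num
            _ ≤ ENNReal.ofReal κ.toReal := ENNReal.ofReal_le_ofReal h5)
    refine ⟨T, hT, ?_⟩
    rw [abs_le]
    constructor <;> linarith
  · intro hn2 hκt
    obtain ⟨m, rfl⟩ : ∃ m, n = m + 2 := ⟨n - 2, by omega⟩
    apply inf_top
    intro t ht
    apply not_for_break hε1 ht _ hP
    rw [hκt]
    exact le_top

end Pool.Agent.Results.MP_02bbae_an.PrecisionOfCG
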